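import Pool.Agent.H6.G9.Targets

/-!
# Theorem (H), MP_c59857_nt: frequencies near to a constant have few bad quadruples
-/

set_option autoImplicit false

namespace Pool.Agent.H5.G9

open Finset Pool.Agent.H6.N4D Pool.Agent.H93 Pool.Agent.H93.GS Pool.Agent.H6.GS2 Pool.Agent.H6.G9

/-- four fractions with distinct primes are far from the integers -/
lemma nd_four {q : Fin 4 → ℕ} (hp : ∀ j, (q j).Prime) (hi : Function.Injective q) {b : Fin 4 → ℤ}
    (hb : ∀ j, ¬ ((q j : ℤ) ∣ b j)) :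
    1 / ((q 0 : ℝ) * q 1 * q 2 * q 3) ≤ nd (∑ j, (b j : ℝ) / q j) := by
  have h0 : (0 : ℝ) < q 0 := by exact_mod_cast (hp 0).pos
  have h1 : (0 : ℝ) < q 1 := by exact_mod_cast (hp 1).pos
  have h2 : (0 : ℝ) < q 2 := by exact_mod_cast (hp 2).pos
  have h3 : (0 : ℝ) < q 3 := by exact_mod_cast (hp 3).pos
  obtain ⟨k, hk⟩ := exists_int (∑ j, (b j : ℝ) / q j)
  rw [← hk, Fin.sum_univ_four]
  set A : ℤ := b 0 * (q 1 * q 2 * q 3) + q 0 * (b 1 * (q 2 * q 3) + b 2 * (q 1 * q 3) +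
    b 3 * (q 1 * q 2) - k * (q 1 * q 2 * q 3)) with hA
  have hA0 : A ≠ 0 := by
    intro h
    have hd : (q 0 : ℤ) ∣ b 0 * (q 1 * q 2 * q 3) := by
      have : (q 0 : ℤ) ∣ A := by
        rw [h]
        exact dvd_zero _
      exact (Int.dvd_add_left (Dvd.intro _ rfl)).mp this
    have hpi : Prime (q 0 : ℤ) := Nat.prime_iff_prime_int.1 (hp 0)
    have key : ∀ j, (0 : Fin 4) ≠ j → ¬ ((q 0 : ℤ) ∣ q j) := by
      intro j hj hdj
      have h5 : q 0 ∣ q j := by exact_mod_cast hdj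
      exact hj (hi ((Nat.prime_dvd_prime_iff_eq (hp 0) (hp j)).1 h5))
    rcases hpi.dvd_or_dvd hd with h4 | h4
    · exact hb 0 h4
    · rcases hpi.dvd_or_dvd h4 with h5 | h5
      · rcases hpi.dvd_or_dvd h5 with h6 | h6
        · exact key 1 (by decide) h6
        · exact key 2 (by decide) h6
      · exact key 3 (by decide) h5
  have hA1 : (1 : ℝ) ≤ |(A : ℝ)| := by
    exact_mod_cast Int.one_le_abs hA0
  have he : (b 0 : ℝ) / q 0 + (b 1 : ℝ) / q 1 + (b 2 : ℝ) / q 2 + (b 3 : ℝ) / q 3 - k =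
      (A : ℝ) / ((q 0 : ℝ) * q 1 * q 2 * q 3) := by
    rw [hA]
    push_cast
    field_simp
    ring
  rw [he, abs_div, abs_of_pos (show (0 : ℝ) < (q 0 : ℝ) * q 1 * q 2 * q 3 by positivity)]
  gcongr

lemma no_bad {m : ℕ} (hm : 400 ≤ m) {a : ℝ} {α : ℕ → ℝ}
    (h : ∀ q ∈ EB.QQ m, nd (α q - a) ≤ 4 * 2 ^ (m / 50) / 2 ^ m) {q : Fin 4 → ℕ}
    (hq : ∀ j, q j ∈ EB.QQ m) (hi : Function.Injective q)
    (hb : Pool.Agent.H21.BS.Bad (4 ^ (m / 2)) (Pool.Agent.H3.BT.kq m) α q) : False := by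
  obtain ⟨b, hb1, hb2⟩ := hb
  have hp : ∀ j, (q j).Prime := fun j => (mem_filter.1 (hq j)).2
  have hle : ∀ j, (q j : ℝ) ≤ 2 ^ (m / 200) := fun j => by
    have := (mem_Ioc.1 (mem_filter.1 (hq j)).1).2
    exact_mod_cast this
  have h4 := nd_four hp hi hb1
  set S : ℝ := ∑ j, (b j : ℝ) / q j with hS
  -- the triangle inequality
  have h5 : nd S ≤ nd (α (q 0) - a) + nd (α (q 1) - a) + nd (α (q 2) - a) + nd (α (q 3) - a) +
      1 / (Pool.Agent.H3.BT.kq m * ((4 ^ (m / 2) : ℕ) : ℝ)) := by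
    have e : S = ((α (q 0) - a) - (α (q 1) - a) - (α (q 2) - a) + (α (q 3) - a)) -
        (α (q 0) - α (q 1) - α (q 2) + α (q 3) - S) := by ring
    have t1 := nd_sub_le ((α (q 0) - a) - (α (q 1) - a) - (α (q 2) - a) + (α (q 3) - a))
        (α (q 0) - α (q 1) - α (q 2) + α (q 3) - S)
    rw [← e] at t1
    have t2 := nd_add_le ((α (q 0) - a) - (α (q 1) - a) - (α (q 2) - a)) (α (q 3) - a)
    have t3 := nd_sub_le ((α (q 0) - a) - (α (q 1) - a)) (α (q 2) - a)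
    have t4 := nd_sub_le (α (q 0) - a) (α (q 1) - a)
    linarith
  have h6 := h _ (hq 0)
  have h7 := h _ (hq 1)
  have h8 := h _ (hq 2)
  have h9 := h _ (hq 3)
  -- the radius of the bad quadruples
  have h10 : 1 / (Pool.Agent.H3.BT.kq m * ((4 ^ (m / 2) : ℕ) : ℝ)) ≤ 2 * 2 ^ (m / 50) / 2 ^ m := by
    unfold Pool.Agent.H3.BT.kq
    rw [one_div_pow, one_div_mul_eq_div, one_div_div]
    push_cast
    rw [div_le_div_iff₀ (by positivity) (by positivity)]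
    have e1 : (2 : ℝ) ^ m ≤ 2 * 4 ^ (m / 2) := by
      rw [show (4 : ℝ) = 2 ^ 2 by norm_num, ← pow_mul, ← pow_succ']
      exact pow_le_pow_right₀ (by norm_num) (by omega)
    have e2 : (2 : ℝ) ^ (m / 4800) ≤ 2 ^ (m / 50) :=
      pow_le_pow_right₀ (by norm_num) (by omega)
    calc (2 : ℝ) ^ (m / 4800) * 2 ^ m ≤ 2 ^ (m / 50) * (2 * 4 ^ (m / 2)) := by gcongr
      _ = 2 * 2 ^ (m / 50) * 4 ^ (m / 2) := by ring
  -- the product of the primes
  have h11 : (q 0 : ℝ) * q 1 * q 2 * q 3 ≤ 2 ^ (m / 50) := by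
    calc (q 0 : ℝ) * q 1 * q 2 * q 3 ≤
        2 ^ (m / 200) * 2 ^ (m / 200) * 2 ^ (m / 200) * 2 ^ (m / 200) := by
          have := hle 0
          have := hle 1
          have := hle 2
          have := hle 3
          gcongr
      _ = 2 ^ (4 * (m / 200)) := by rw [← pow_add, ← pow_add, ← pow_add]; congr 1; ring
      _ ≤ 2 ^ (m / 50) := pow_le_pow_right₀ (by norm_num) (by omega)
  have h12 : 1 / (2 : ℝ) ^ (m / 50) ≤ 1 / ((q 0 : ℝ) * q 1 * q 2 * q 3) := by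
    have z0 : (0 : ℝ) < q 0 := by exact_mod_cast (hp 0).pos
    have z1 : (0 : ℝ) < q 1 := by exact_mod_cast (hp 1).pos
    have z2 : (0 : ℝ) < q 2 := by exact_mod_cast (hp 2).pos
    have z3 : (0 : ℝ) < q 3 := by exact_mod_cast (hp 3).pos
    exact one_div_le_one_div_of_le (by positivity) h11
  have h13 : 1 / (2 : ℝ) ^ (m / 50) ≤ 18 * 2 ^ (m / 50) / 2 ^ m := by
    have e : (18 : ℝ) * 2 ^ (m / 50) / 2 ^ m = 4 * (4 * 2 ^ (m / 50) / 2 ^ m) +
      2 * 2 ^ (m / 50) / 2 ^ m := by ring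
    rw [e]
    linarith
  rw [div_le_div_iff₀ (by positivity) (by positivity)] at h13
  have h14 : (18 : ℝ) * 2 ^ (m / 50) * 2 ^ (m / 50) < 2 ^ m := by
    calc (18 : ℝ) * 2 ^ (m / 50) * 2 ^ (m / 50) < 2 ^ 5 * 2 ^ (m / 50) * 2 ^ (m / 50) := by
          gcongr
          norm_num
      _ = 2 ^ (5 + m / 50 + m / 50) := by rw [pow_add, pow_add]
      _ ≤ 2 ^ m := pow_le_pow_right₀ (by norm_num) (by omega)
  linarith

theorem pf_LF0 : T_LF0 := by
  classical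
  refine ⟨400, fun m a α hm h => ?_⟩
  unfold Pool.Agent.H3.BT.NCt Pool.Agent.H21.BS.badmass
  rw [Finset.filter_false_of_mem, sum_empty]
  · unfold Pool.Agent.H3.BT.kq
    positivity
  · intro q hq hb
    rw [Fintype.mem_piFinset] at hq
    exact no_bad hm h hq hb.1 hb.2

end Pool.Agent.H5.G9
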